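import Pool.Agent.N162.CW.Stm
import Pool.Agent.N966.CV.Dim
import Pool.Agent.N966.CV.A3
import Pool.Agent.N169.CV.A2

/-!
# CW/A2: points with a relation lie on a plane curve (linear range)
-/

set_option autoImplicit false
set_option maxHeartbeats 1000000

open MvPolynomial

namespace Pool.Agent.N134.CW

open Pool.Agent.N162.CV (PRel StDIM StA1)
open Pool.Agent.N169.CV (evS dim_le)
open Pool.Agent.N966.CV (ev mem_ker_ev rank_ev orth)

section

variable {Ω : Type} [Field Ω]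

/-- a multiple of `q` in the subspace `W` -/
def Dv (W : Submodule Ω (MvPolynomial (Fin 2) Ω)) (q : MvPolynomial (Fin 2) Ω) :
    Subspace Ω W where
  carrier := {B | q ∣ (B : MvPolynomial (Fin 2) Ω)}
  zero_mem' := dvd_zero q
  add_mem' := fun {a b} ha hb => by
    show q ∣ ((a + b : W) : MvPolynomial (Fin 2) Ω)
    rw [Submodule.coe_add]
    exact dvd_add ha hb
  smul_mem' := fun c a ha => by
    show q ∣ ((c • a : W) : MvPolynomial (Fin 2) Ω)
    rw [Submodule.coe_smul, smul_eq_C_mul]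
    exact ha.mul_left _

lemma coprime_elt [Infinite Ω] (W : Submodule Ω (MvPolynomial (Fin 2) Ω))
    (B1 : MvPolynomial (Fin 2) Ω) (hB1 : B1 ≠ 0)
    (hW : ∀ q : MvPolynomial (Fin 2) Ω, Irreducible q → ∃ B ∈ W, ¬ q ∣ B) :
    ∃ B2 ∈ W, ∀ q : MvPolynomial (Fin 2) Ω, Irreducible q → q ∣ B1 → ¬ q ∣ B2 := by
  classical
  obtain ⟨s, hs⟩ : ∃ s : Finset (Subspace Ω W),
      s = (UniqueFactorizationMonoid.factors B1).toFinset.image (Dv W) := ⟨_, rfl⟩
  have htop : ⊤ ∉ s := by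
    intro h
    rw [hs, Finset.mem_image] at h
    obtain ⟨q, hq, hq2⟩ := h
    have hqi := UniqueFactorizationMonoid.irreducible_of_factor q (Multiset.mem_toFinset.1 hq)
    obtain ⟨B, hB, hnd⟩ := hW q hqi
    have h1 : (⟨B, hB⟩ : W) ∈ Dv W q := by
      rw [hq2]
      trivial
    exact hnd h1
  have hne := Subspace.biUnion_ne_univ_of_top_notMem htop
  obtain ⟨x, hx⟩ := (Set.ne_univ_iff_exists_notMem _).1 hne
  refine ⟨x, x.2, fun q hq hq1 hq2 => hx ?_⟩
  obtain ⟨q', hq', hass⟩ := UniqueFactorizationMonoid.exists_mem_factors_of_dvd hB1 hq hq1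
  rw [Set.mem_iUnion₂]
  refine ⟨Dv W q', ?_, ?_⟩
  · rw [hs, Finset.mem_image]
    exact ⟨q', Multiset.mem_toFinset.2 hq', rfl⟩
  · exact hass.symm.dvd.trans hq2

lemma relPrime_of {A B : MvPolynomial (Fin 2) Ω} (hA : A ≠ 0)
    (h : ∀ q : MvPolynomial (Fin 2) Ω, Irreducible q → q ∣ A → ¬ q ∣ B) : IsRelPrime A B := by
  intro d hdA hdB
  by_contra hd
  have hd0 : d ≠ 0 := by
    rintro rfl
    exact hA (zero_dvd_iff.1 hdA)
  obtain ⟨q, hq, hqd⟩ := WfDvdMonoid.exists_irreducible_factor hd hd0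
  exact h q hq (hqd.trans hdA) (hqd.trans hdB)

end

/-- the polynomial of maximal degree which divides all polynomials vanishing at the points -/
lemma claim {Ω ι : Type} [Field Ω] [IsAlgClosed Ω] (h : StA1) (S : Finset ι)
    (p : ι → Fin 2 → Ω) (lam : ι → Ω) (m k0 : ℕ) (G P0 : MvPolynomial (Fin 2) Ω)
    (hinj : Set.InjOn p S) (hl : ∀ i ∈ S, lam i ≠ 0) (hr : PRel m S p lam) (hk0 : 2 * k0 ≤ m + 2)
    (hkm : k0 ≤ m) (hG : G ≠ 0) (hGd : ∀ P : MvPolynomial (Fin 2) Ω, P.totalDegree ≤ k0 →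
      (∀ i ∈ S, eval (p i) P = 0) → G ∣ P)
    (hmax : ∀ G' : MvPolynomial (Fin 2) Ω, G' ≠ 0 → (∀ P : MvPolynomial (Fin 2) Ω,
      P.totalDegree ≤ k0 → (∀ i ∈ S, eval (p i) P = 0) → G' ∣ P) →
      G'.totalDegree ≤ G.totalDegree) (hP0 : P0 ≠ 0) (hP0d : P0.totalDegree ≤ k0)
    (hP0z : ∀ i ∈ S, eval (p i) P0 = 0) : ∀ i ∈ S, eval (p i) G = 0 := by
  classical
  by_contra hno
  push Not at hno
  obtain ⟨i0, hi0, hi1⟩ := hno
  obtain ⟨S', hS'⟩ : ∃ S' : Finset ι, S' = S.filter (fun i => eval (p i) G ≠ 0) := ⟨_, rfl⟩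
  have hmem : ∀ i ∈ S', i ∈ S ∧ eval (p i) G ≠ 0 := fun i hi => by
    rw [hS'] at hi
    exact Finset.mem_filter.1 hi
  have hne : i0 ∈ S' := by
    rw [hS']
    exact Finset.mem_filter.2 ⟨hi0, hi1⟩
  have htk : G.totalDegree ≤ k0 := by
    obtain ⟨Q, hQ⟩ := hGd P0 hP0d hP0z
    have hQ0 : Q ≠ 0 := by
      rintro rfl
      rw [mul_zero] at hQ
      exact hP0 hQ
    rw [hQ, totalDegree_mul_of_isDomain hG hQ0] at hP0d
    omega
  obtain ⟨W, hW⟩ : ∃ W : Submodule Ω (MvPolynomial (Fin 2) Ω),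
      W = restrictTotalDegree (Fin 2) Ω (k0 - G.totalDegree) ⊓ LinearMap.ker (evS S' p) :=
    ⟨_, rfl⟩
  have hWm : ∀ B, B ∈ W ↔ B.totalDegree ≤ k0 - G.totalDegree ∧ ∀ i ∈ S', eval (p i) B = 0 := by
    intro B
    rw [hW, Submodule.mem_inf, mem_restrictTotalDegree, LinearMap.mem_ker]
    constructor
    · rintro ⟨h1, h2⟩
      exact ⟨h1, fun i hi => congrFun h2 ⟨i, hi⟩⟩
    · rintro ⟨h1, h2⟩
      refine ⟨h1, ?_⟩
      ext i
      exact h2 i.1 i.2
  -- `V = G W`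
  have hVW : ∀ P : MvPolynomial (Fin 2) Ω, P ≠ 0 → P.totalDegree ≤ k0 →
      (∀ i ∈ S, eval (p i) P = 0) → ∃ B ∈ W, P = G * B := by
    intro P hP hPd hPz
    obtain ⟨Q, hQ⟩ := hGd P hPd hPz
    have hQ0 : Q ≠ 0 := by
      rintro rfl
      rw [mul_zero] at hQ
      exact hP hQ
    refine ⟨Q, (hWm Q).2 ⟨?_, fun i hi => ?_⟩, hQ⟩
    · rw [hQ, totalDegree_mul_of_isDomain hG hQ0] at hPd
      omega
    · have h1 := hPz i (hmem i hi).1
      rw [hQ, map_mul] at h1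
      exact (mul_eq_zero.1 h1).resolve_left (hmem i hi).2
  -- no common factor
  have hcf : ∀ q : MvPolynomial (Fin 2) Ω, Irreducible q → ∃ B ∈ W, ¬ q ∣ B := by
    intro q hq
    by_contra hcon
    push Not at hcon
    have h1 := hmax (G * q) (mul_ne_zero hG hq.ne_zero) (by
      intro P hPd hPz
      by_cases hP : P = 0
      · rw [hP]
        exact dvd_zero _
      · obtain ⟨B, hB, hPB⟩ := hVW P hP hPd hPz
        rw [hPB]
        exact mul_dvd_mul_left G (hcon B hB))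
    rw [totalDegree_mul_of_isDomain hG hq.ne_zero] at h1
    have h2 : q.totalDegree = 0 := by omega
    apply hq.not_isUnit
    have h3 := totalDegree_eq_zero_iff_eq_C.1 h2
    rw [h3]
    have h4 : q.coeff 0 ≠ 0 := by
      intro h5
      rw [h5, C_0] at h3
      exact hq.ne_zero h3
    exact (isUnit_iff_ne_zero.2 h4).map C
  obtain ⟨B1, hB1, hPB⟩ := hVW P0 hP0 hP0d hP0z
  have hB10 : B1 ≠ 0 := by
    rintro rfl
    rw [mul_zero] at hPB
    exact hP0 hPB
  have hinf : Infinite Ω := IsAlgClosed.instInfinite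
  obtain ⟨B2, hB2, hcop⟩ := coprime_elt W B1 hB10 hcf
  have hB1u : ¬ IsUnit B1 := by
    intro hu
    have h1 := hu.map (eval (p i0))
    rw [((hWm B1).1 hB1).2 i0 hne] at h1
    exact not_isUnit_zero h1
  have hB20 : B2 ≠ 0 := by
    rintro rfl
    obtain ⟨q, hq, hqd⟩ := WfDvdMonoid.exists_irreducible_factor hB1u hB10
    exact hcop q hq hqd (dvd_zero q)
  have hrel' : PRel (m - G.totalDegree) S' p (fun i => lam i * eval (p i) G) := by
    intro Q hQ
    have h1 := hr (G * Q) ((totalDegree_mul G Q).trans (by omega))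
    rw [← h1, hS', Finset.sum_filter]
    refine Finset.sum_congr rfl fun i _ => ?_
    by_cases hi : eval (p i) G = 0
    · rw [if_neg (not_not.2 hi), map_mul, hi, zero_mul, mul_zero]
    · rw [if_pos hi, map_mul, mul_assoc]
  have key := h Ω ι S' p (fun i => lam i * eval (p i) G) (m - G.totalDegree) B1 B2 ⟨i0, hne⟩
    (hinj.mono (fun i hi => (hmem i hi).1))
    (fun i hi => mul_ne_zero (hl i (hmem i hi).1) (hmem i hi).2) hrel' hB10 hB20
    (relPrime_of hB10 hcop)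
    (fun i hi => ⟨((hWm B1).1 hB1).2 i hi, ((hWm B2).1 hB2).2 i hi⟩)
  have h1 := ((hWm B1).1 hB1).1
  have h2 := ((hWm B2).1 hB2).1
  omega

/-- the rank of the evaluation on the polynomials of degree at most `k` -/
lemma rank_k (hd : StDIM) {Ω ι : Type} [Field Ω] (S : Finset ι) (p : ι → Fin 2 → Ω) (k0 k : ℕ)
    (hk : k ≤ k0) (G : MvPolynomial (Fin 2) Ω) (hG : G ≠ 0) (htk : G.totalDegree ≤ k + 2)
    (h : ∀ P : MvPolynomial (Fin 2) Ω, P.totalDegree ≤ k0 → (∀ i ∈ S, eval (p i) P = 0) →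
      G ∣ P) :
    (G.totalDegree : ℤ) * (2 * k + 3 - G.totalDegree) ≤
      2 * Module.finrank Ω (LinearMap.range (ev S p k)) := by
  obtain ⟨t, ht⟩ : ∃ t, t = G.totalDegree := ⟨_, rfl⟩
  rcases Nat.lt_or_ge k t with hkt | hkt
  · have h3 : LinearMap.ker (ev S p k) = ⊥ := by
      rw [eq_bot_iff]
      intro P hP
      rw [mem_ker_ev] at hP
      have hPk := (mem_restrictTotalDegree (Fin 2) k (P : MvPolynomial (Fin 2) Ω)).1 P.2
      obtain ⟨Q, hQ⟩ := h P (hPk.trans hk) hP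
      rw [Submodule.mem_bot]
      apply Subtype.ext
      by_contra hP0
      have hQ0 : Q ≠ 0 := by
        rintro rfl
        rw [mul_zero] at hQ
        exact hP0 hQ
      rw [hQ, totalDegree_mul_of_isDomain hG hQ0] at hPk
      omega
    have h0 := (hd Ω k).1
    have h4 := LinearMap.finrank_range_add_finrank_ker (ev S p k)
    rw [h3, finrank_bot, add_zero] at h4
    rw [h4]
    have h5 := (hd Ω k).2
    have h6 : (2 : ℤ) * (Module.finrank Ω (restrictTotalDegree (Fin 2) Ω k) : ℤ) =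
        (k + 1) * (k + 2) := by exact_mod_cast h5
    rw [h6, ← ht]
    have h7 : t = k + 1 ∨ t = k + 2 := by omega
    rcases h7 with rfl | rfl
    · push_cast
      nlinarith
    · push_cast
      nlinarith
  · have h1 := rank_ev hd S p k G hG (by omega) (fun P hP hz => h P (hP.trans hk) hz)
    rw [← ht] at h1
    rw [← ht]
    obtain ⟨j, hj⟩ : ∃ j, k = t + j := ⟨k - t, by omega⟩
    have e : k - t = j := by omega
    rw [e] at h1
    have h2 : ((k : ℤ) + 1) * (k + 2) ≤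
        2 * Module.finrank Ω (LinearMap.range (ev S p k)) + (j + 1) * (j + 2) := by
      exact_mod_cast h1
    have h3 : (k : ℤ) = t + j := by exact_mod_cast hj
    rw [h3] at h2 ⊢
    nlinarith

theorem num1 (m N n k : ℕ) (hm : 7 * N + 4 ≤ m) (hn : n < (N + 1) * (m + 2 - N))
    (hk : m + 1 ≤ 2 * k) : 2 * n < (k + 1) * (k + 2) := by
  obtain ⟨r, hr⟩ : ∃ r, m = 7 * N + 4 + r := ⟨m - (7 * N + 4), by omega⟩
  have e : m + 2 - N = 6 * N + 6 + r := by omega
  rw [e] at hn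
  have h1 : (m + 3) * (m + 5) ≤ (2 * k + 2) * (2 * k + 4) := Nat.mul_le_mul (by omega) (by omega)
  rw [hr] at h1
  nlinarith

theorem num2 (m N t n : ℕ) (hm : 7 * N + 4 ≤ m) (hn : n < (N + 1) * (m + 2 - N))
    (ht : 2 * t ≤ m + 2) (hNt : N + 1 ≤ t)
    (h : (t : ℤ) * (m + 3 - t) ≤ n) : False := by
  have h1 : ((m + 2 - N : ℕ) : ℤ) = m + 2 - N := by
    rw [Nat.cast_sub (by omega)]
    push_cast
    ring
  have h2 : (n : ℤ) < (N + 1) * (m + 2 - N) := by
    rw [← h1]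
    exact_mod_cast hn
  have h3 : (0 : ℤ) ≤ ((t : ℤ) - (N + 1)) * ((m : ℤ) + 3 - t - (N + 1)) := by
    apply mul_nonneg
    · have : ((N + 1 : ℕ) : ℤ) ≤ t := by exact_mod_cast hNt
      push_cast at this
      linarith
    · have k1 : ((2 * t : ℕ) : ℤ) ≤ ((m + 2 : ℕ) : ℤ) := by exact_mod_cast ht
      have k2 : ((7 * N + 4 : ℕ) : ℤ) ≤ m := by exact_mod_cast hm
      push_cast at k1 k2
      linarith
  nlinarith

theorem a2_ (h : StA1) (hd : StDIM) : Pool.Agent.N162.CW.StA2 := by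
  classical
  intro Ω _ _ ι S p lam m N hm hc hinj hl hr
  rcases S.eq_empty_or_nonempty with rfl | hS
  · refine ⟨1, one_ne_zero, ?_, ?_⟩
    · rw [totalDegree_one]
      exact Nat.zero_le N
    · intro i hi
      exact absurd hi (Finset.notMem_empty i)
  obtain ⟨k0, hk0⟩ : ∃ k0, k0 = m / 2 + 1 := ⟨_, rfl⟩
  have hk1 : 2 * k0 ≤ m + 2 := by omega
  have hk2 : m + 1 ≤ 2 * k0 := by omega
  have hkm : k0 ≤ m := by omega
  -- a nonzero polynomial
  obtain ⟨P0, hP0d, hP0z, hP0⟩ : ∃ P0 : MvPolynomial (Fin 2) Ω, P0.totalDegree ≤ k0 ∧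
      (∀ i ∈ S, eval (p i) P0 = 0) ∧ P0 ≠ 0 := by
    by_contra hcon
    push Not at hcon
    have hdim := dim_le hd S p k0 ⊥ (by
      intro P hP hPz
      rw [Submodule.mem_bot]
      exact hcon P hP hPz)
    rw [finrank_bot, add_zero] at hdim
    have e1 := (hd Ω k0).2
    have e2 := num1 m N S.card k0 hm hc hk2
    omega
  -- the polynomial of maximal degree
  obtain ⟨Pr, hPr⟩ : ∃ Pr : ℕ → Prop, Pr = fun t => ∃ G : MvPolynomial (Fin 2) Ω, G ≠ 0 ∧
      G.totalDegree = t ∧ ∀ P : MvPolynomial (Fin 2) Ω, P.totalDegree ≤ k0 →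
        (∀ i ∈ S, eval (p i) P = 0) → G ∣ P := ⟨_, rfl⟩
  have hPr0 : Pr 0 := by
    rw [hPr]
    exact ⟨1, one_ne_zero, totalDegree_one, fun P _ _ => one_dvd P⟩
  have hspec : Pr (Nat.findGreatest Pr k0) := Nat.findGreatest_spec (Nat.zero_le k0) hPr0
  have hle : Nat.findGreatest Pr k0 ≤ k0 := Nat.findGreatest_le k0
  obtain ⟨t, ht⟩ : ∃ t, t = Nat.findGreatest Pr k0 := ⟨_, rfl⟩
  rw [← ht] at hspec hle
  have hspec' := hspec
  rw [hPr] at hspec'
  obtain ⟨G, hG, hGt, hGd⟩ := hspec'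
  have hmax : ∀ G' : MvPolynomial (Fin 2) Ω, G' ≠ 0 → (∀ P : MvPolynomial (Fin 2) Ω,
      P.totalDegree ≤ k0 → (∀ i ∈ S, eval (p i) P = 0) → G' ∣ P) →
      G'.totalDegree ≤ G.totalDegree := by
    intro G' hG' hd'
    by_contra hlt
    have h1 : G'.totalDegree ≤ k0 := by
      obtain ⟨Q, hQ⟩ := hd' P0 hP0d hP0z
      have hQ0 : Q ≠ 0 := by
        rintro rfl
        rw [mul_zero] at hQ
        exact hP0 hQ
      rw [hQ, totalDegree_mul_of_isDomain hG' hQ0] at hP0d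
      omega
    have h2 : ¬ Pr G'.totalDegree := Nat.findGreatest_is_greatest (by omega) h1
    apply h2
    rw [hPr]
    exact ⟨G', hG', rfl, hd'⟩
  have hz := claim h S p lam m k0 G P0 hinj hl hr hk1 hkm hG hGd hmax hP0 hP0d hP0z
  refine ⟨G, hG, ?_, hz⟩
  by_contra hNt
  have r1 := rank_k hd S p k0 k0 le_rfl G hG (by omega) hGd
  have r2 := rank_k hd S p k0 (m - k0) (by omega) G hG (by omega) hGd
  have h5 := orth S lam hl (LinearMap.range (ev S p k0)) (LinearMap.range (ev S p (m - k0))) (by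
    rintro _ ⟨P, rfl⟩ _ ⟨Q, rfl⟩
    have hPk := (mem_restrictTotalDegree (Fin 2) _ (P : MvPolynomial (Fin 2) Ω)).1 P.2
    have hQk := (mem_restrictTotalDegree (Fin 2) _ (Q : MvPolynomial (Fin 2) Ω)).1 Q.2
    have h6 := hr ((P : MvPolynomial (Fin 2) Ω) * Q) (by
      have := totalDegree_mul (P : MvPolynomial (Fin 2) Ω) Q
      omega)
    rw [← Finset.sum_coe_sort] at h6
    rw [← h6]
    refine Finset.sum_congr rfl fun i _ => ?_
    rw [map_mul]
    rfl)
  have h7 : ((Module.finrank Ω (LinearMap.range (ev S p k0)) : ℕ) : ℤ) +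
      ((Module.finrank Ω (LinearMap.range (ev S p (m - k0))) : ℕ) : ℤ) ≤ S.card := by
    exact_mod_cast h5
  have h8 : ((m - k0 : ℕ) : ℤ) = m - k0 := by
    rw [Nat.cast_sub hkm]
  rw [h8] at r2
  refine num2 m N G.totalDegree S.card hm hc (by omega) (by omega) ?_
  nlinarith

end Pool.Agent.N134.CW
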